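import Mathlib
import Pool.Agent.N658.TP.Stm

/-! Project TP, part Ent: the entropy bound. -/

set_option autoImplicit false

namespace Pool.Agent.N455.TP

theorem ent : Pool.Agent.N658.TP.StmEnt := by
  intro ι _ μ lam w t ht hμ hw hwl hm
  set m := ∑ j, μ j with hmdef
  set W := ∑ j, μ j * w j with hW
  have hW0 : 0 < W := by
    have h1 : ∃ j ∈ Finset.univ, 0 < μ j := by
      by_contra hcon
      push Not at hcon
      have : m ≤ 0 := Finset.sum_nonpos hcon
      linarith
    obtain ⟨j, hj, hj0⟩ := h1
    exact Finset.sum_pos' (fun i _ => mul_nonneg (hμ i) (hw i).le) ⟨j, hj, mul_pos hj0 (hw j)⟩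
  have h1 : ∀ j, t * (μ j * w j * lam j) ≤
      (Real.log m - Real.log W) * (μ j * w j) + (W / m * μ j - μ j * w j) := by
    intro j
    have h2 : t * lam j ≤ -Real.log (w j) := by
      have := Real.log_le_log (hw j) (hwl j)
      rw [Real.log_exp] at this
      linarith
    have h3 := Real.log_le_sub_one_of_pos (show 0 < W / (m * w j) from
      div_pos hW0 (mul_pos hm (hw j)))
    rw [Real.log_div hW0.ne' (mul_pos hm (hw j)).ne', Real.log_mul hm.ne' (hw j).ne'] at h3
    have h4 : t * lam j ≤ (Real.log m - Real.log W) + (W / (m * w j) - 1) := by linarith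
    have h5 := mul_le_mul_of_nonneg_left h4 (mul_nonneg (hμ j) (hw j).le)
    have h6 : μ j * w j * ((Real.log m - Real.log W) + (W / (m * w j) - 1)) =
        (Real.log m - Real.log W) * (μ j * w j) + (W / m * μ j - μ j * w j) := by
      have := (hw j).ne'
      field_simp
    rw [h6] at h5
    linarith
  have h2 := Finset.sum_le_sum (s := Finset.univ) fun j _ => h1 j
  rw [← Finset.mul_sum, Finset.sum_add_distrib, ← Finset.mul_sum, Finset.sum_sub_distrib,
    ← Finset.mul_sum, ← hmdef, ← hW, div_mul_cancel₀ _ hm.ne', sub_self, add_zero] at h2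
  rw [mul_div_assoc', le_div_iff₀ ht]
  linarith

end Pool.Agent.N455.TP
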